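import Pool.Agent.PSS.StmtsS4

/-!
# Squad PSS, row NFP (helper79)
-/

open scoped BigOperators TensorProduct

noncomputable section

namespace Pool.Agent.PSS.H79

open Pool.Agent.PFC (tw IsTv)
open Pool.Agent.PFD.D2b (FrR)

/-- the restriction of `φ e` to `W` -/
def rsE {V E : Type} [CommGroup V] [Group E] (φ : E →* MulAut V) (W : Subgroup V)
    (h : ∀ e : E, ∀ w ∈ W, φ e w ∈ W) (e : E) : MulAut W where
  toFun := fun w => ⟨φ e w, h e w w.2⟩
  invFun := fun w => ⟨φ e⁻¹ w, h e⁻¹ w w.2⟩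
  left_inv := by
    intro w
    apply Subtype.ext
    change φ e⁻¹ (φ e w) = w
    rw [map_inv, MulAut.inv_apply_self]
  right_inv := by
    intro w
    apply Subtype.ext
    change φ e (φ e⁻¹ w) = w
    rw [map_inv, MulAut.apply_inv_self]
  map_mul' := by
    intro u w
    apply Subtype.ext
    exact map_mul (φ e) (u : V) (w : V)

theorem rsE_inv {V E : Type} [CommGroup V] [Group E] (φ : E →* MulAut V) (W : Subgroup V)
    (h : ∀ e : E, ∀ w ∈ W, φ e w ∈ W) (e : E) (w : W) :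
    (((rsE φ W h e)⁻¹ w : W) : V) = φ e⁻¹ w := rfl

theorem nfp (hN : NfrStmt) : NfpStmt := by
  intro ℓ _ R V E A B _ _ _ _ _ _ _ _ φ α W N hℓ hV hW hP hU
  classical
  constructor
  · obtain ⟨Ω, hΩ, hact, b, c, hf, hst⟩ := hP
    have : Finite (MulAut W) := Finite.of_injective (fun f => (f : W → W)) DFunLike.coe_injective
    have : Fintype (Σ ε : MulAut W, Fp Ω (twW W ε)) := Fintype.ofFinite _
    obtain ⟨c', -, -, hf'⟩ := hN ℓ R V A B Ω α b c W N hℓ hV hf
    refine ⟨Σ ε : MulAut W, Fp Ω (twW W ε), this, inferInstance, _, c', hf', ?_⟩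
    rintro ⟨ε, ω⟩
    obtain ⟨e, S, hS⟩ := hst ω.1
    refine ⟨e, S, ?_⟩
    rw [← hS]
    ext p
    rw [MulAction.mem_stabilizer_iff, MulAction.mem_stabilizer_iff]
    constructor
    · intro h
      have h1 : (⟨ε, p • ω⟩ : Σ ε : MulAut W, Fp Ω (twW W ε)) = ⟨ε, ω⟩ := h
      have h2 : p • ω = ω := by
        have := (Sigma.mk.injEq _ _ _ _).mp h1
        exact eq_of_heq this.2
      exact congrArg Subtype.val h2
    · intro h
      have h2 : p • ω = ω := Subtype.ext h
      change (⟨ε, p • ω⟩ : Σ ε : MulAut W, Fp Ω (twW W ε)) = ⟨ε, ω⟩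
      rw [h2]
  · intro e
    obtain ⟨y, y', h1, h2, h3⟩ := hU e
    have hy : y ∈ FxR (bw R α) (twW W (rsE φ W hW e)) := by
      rw [mem_tw]
      intro w
      exact (h3 w).symm
    have h4 : ∀ u, α u * y' = y' * α (φ e u) := by
      intro u
      calc α u * y' = (y' * y) * α u * y' := by rw [h2, one_mul]
        _ = y' * (y * α u) * y' := by simp only [mul_assoc]
        _ = y' * (α (φ e u) * y) * y' := by rw [h3]
        _ = y' * α (φ e u) * (y * y') := by simp only [mul_assoc]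
        _ = y' * α (φ e u) := by rw [h1, mul_one]
    have hy' : y' ∈ FxR (bw R α) (twW W (rsE φ W hW e)⁻¹) := by
      rw [mem_tw]
      intro w
      have h5 := h4 (φ e⁻¹ w)
      rw [rsE_inv, h5, map_inv, MulAut.apply_inv_self]
    refine ⟨N.β (rsE φ W hW e) y, N.β (rsE φ W hW e)⁻¹ y', ?_, ?_, ?_⟩
    · rw [← N.mul _ _ y hy y' hy', mul_inv_cancel, h1, N.one]
    · rw [← N.mul _ _ y' hy' y hy, inv_mul_cancel, h2, N.one]
    · intro u
      rw [N.nwh_apply, N.nwh_apply, ← N.mul _ _ y hy _ (al_mem_tw u W),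
        ← N.mul _ _ _ (al_mem_tw (φ e u) W) y hy, mul_one, one_mul, h3]

end Pool.Agent.PSS.H79
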