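import Pool.Agent.PSS.StmtsS2

/-!
# Squad PSS, row SVG (helper79)
-/

open scoped BigOperators

noncomputable section

namespace Pool.Agent.PSS.S2.H79

open Pool.Agent.PFC (tw IsTv)
open Pool.Agent.PFD.D2b (FrR)

section basic

variable {F V A Ω : Type} [Field F] [CommGroup V] [Ring A] [Algebra F A] [Fintype Ω]
  [MulAction (V × V) Ω]

theorem frb {α : V →* A} {b : Ω → A} {c : Ω → (A →ₗ[F] F)} (hf : FrR (bw F α) b c)
    (u v : V) (ω : Ω) : b ((u, v) • ω) = α u * b ω * α v⁻¹ := by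
  rw [hf.1]
  simp [bw, mul_assoc]

theorem frc {α : V →* A} {b : Ω → A} {c : Ω → (A →ₗ[F] F)} (hf : FrR (bw F α) b c)
    (u v : V) (ω : Ω) (n : A) : c ((u, v) • ω) (α u * n * α v⁻¹) = c ω n := by
  rw [← hf.2.1 (u, v) ω n]
  simp [bw, mul_assoc]

/-- the invariance of the coefficient function -/
theorem inv {α : V →* A} {b : Ω → A} {c : Ω → (A →ₗ[F] F)} (hf : FrR (bw F α) b c)
    {a : A} (ha : CV α a) (s : A) (hs : ∀ v, s * α v = α v * s) (t : A)
    (ht : ∀ v, t * α v = α v * t) (u v : V) (ω : Ω) :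
    c ((u, v) • ω) (a * s * b ((u, v) • ω) * t) = c ω (a * s * b ω * t) := by
  rw [← frc hf u v ω (a * s * b ω * t), frb hf]
  refine congrArg _ ?_
  have h1 : a * s * α u = α u * (a * s) := by
    rw [mul_assoc, hs, ← mul_assoc, ← ha u, mul_assoc]
  calc a * s * (α u * b ω * α v⁻¹) * t = (a * s * α u) * b ω * (α v⁻¹ * t) := by
        simp only [mul_assoc]
    _ = (α u * (a * s)) * b ω * (t * α v⁻¹) := by rw [h1, ht]
    _ = α u * (a * s * b ω * t) * α v⁻¹ := by simp only [mul_assoc]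

end basic

theorem sg_l {V A : Type} [CommGroup V] [Fintype V] [Ring A] (α : V →* A) (v : V) :
    α v * sg α = sg α := by
  unfold sg
  rw [Finset.mul_sum]
  refine Fintype.sum_equiv (Equiv.mulLeft v) _ _ (fun w => ?_)
  simp

theorem sg_r {V A : Type} [CommGroup V] [Fintype V] [Ring A] (α : V →* A) (v : V) :
    sg α * α v = sg α := by
  unfold sg
  rw [Finset.sum_mul]
  refine Fintype.sum_equiv (Equiv.mulRight v) _ _ (fun w => ?_)
  simp

/-- the value at a fixed point -/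
theorem loc {F V E A Ω : Type} [Field F] [CommGroup V] [Fintype V]
    [Group E] [Ring A] [Algebra F A] [Fintype Ω] [MulAction (V × V) Ω]
    (φ : E →* MulAut V) (α : V →* A) (z : V) (b : Ω → A)
    (c : Ω → (A →ₗ[F] F)) (χ : V → F) (a : A) (e : E) (ω : Ω)
    (hχ : ∀ u v, χ (u * v) = χ u + χ v) (hz : χ z = 1)
    (hb : ∀ u, α u * b ω = b ω * α (φ e⁻¹ u)) :
    ∑ u, χ (φ e⁻¹ u) * c ω (a * α u * b ω * (1 - α z⁻¹)) = - c ω (a * b ω * sg α) := by
  have h1 : ∑ u, χ (φ e⁻¹ u) * c ω (a * α u * b ω * (1 - α z⁻¹)) =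
      ∑ v, χ v * c ω (a * b ω * α v * (1 - α z⁻¹)) := by
    refine Fintype.sum_equiv (φ e⁻¹).toEquiv _ _ (fun u => ?_)
    have h2 : a * α u * b ω = a * b ω * α (φ e⁻¹ u) := by
      rw [mul_assoc, hb, ← mul_assoc]
    rw [h2]
    rfl
  have h3 : ∑ v, χ v * c ω (a * b ω * α (v * z⁻¹)) = ∑ v, χ (v * z) * c ω (a * b ω * α v) := by
    refine Fintype.sum_equiv (Equiv.mulRight z⁻¹) _ _ (fun u => ?_)
    simp
  have h4 : ∀ v, χ v * c ω (a * b ω * α v * (1 - α z⁻¹)) =
      χ v * c ω (a * b ω * α v) - χ v * c ω (a * b ω * α (v * z⁻¹)) := by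
    intro v
    rw [mul_sub, mul_one, mul_assoc (a * b ω) (α v) (α z⁻¹), ← map_mul, map_sub, mul_sub]
  rw [h1, Finset.sum_congr rfl (fun v _ => h4 v), Finset.sum_sub_distrib, h3,
    ← Finset.sum_sub_distrib, sg, Finset.mul_sum, map_sum, ← Finset.sum_neg_distrib]
  refine Finset.sum_congr rfl (fun v _ => ?_)
  rw [hχ, hz]
  ring

theorem svg (hHTR : HtrStmt) (hEOR : EorStmt) (hSVH : SvhStmt) (hCNH : CnhStmt) (hSVI : SviStmt)
    (hSVK : SvkStmt) (hWTR : WtrStmt) (hFPS : FpsStmt) : SvgStmt := by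
  intro ℓ _ F V E A K Ω _ _ _ _ _ _ _ _ _ _ φ α z lam x y b c χ N a hV hRF hPr hN hz ha
  classical
  have hχ : ∀ u v, χ (u * v) = χ u + χ v := fun u v => (cg_zero _ _).1 (hN.add u v)
  obtain ⟨h, hh⟩ := hHTR F V E A Ω φ α b c hPr
  obtain ⟨e, S, he, hS, hst⟩ := hEOR F V E A Ω φ α b c hPr
  obtain ⟨H, hH⟩ := hSVH F V E Ω φ χ e S hχ he hst
  have hfr := hPr.fr
  have hχ1 : χ 1 = 0 := by
    have := hχ 1 1
    rw [mul_one] at this
    simpa using this
  have hCn : Cn 0 α χ (Nh H b c) := by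
    refine hCNH F V A Ω 0 α χ H b c hfr hN.add ?_
    intro v ω
    rw [cg_zero, hH 1 v ω, map_one, hχ1, add_zero]
  -- the left side
  have hL : ∑ u, lam (Gz α z x y N (α u) * a) =
      ∑ ω with h ω = 1, ∑ u, χ (φ (e ω)⁻¹ u) * c ω (a * α u * b ω * (1 - α z⁻¹)) := by
    rw [Finset.sum_comm]
    refine Finset.sum_congr rfl (fun u _ => ?_)
    rw [hSVI F V A K α z lam x y χ N (Nh H b c) a hRF hN hCn ha u]
    exact hSVK F V E A K Ω φ α z lam x y b c h χ H e a hRF hfr hh hχ he hH ha u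
  -- the right side
  have hR : ∑ k, lam (y k * (a * x k * sg α)) =
      ∑ ω with h ω = 1, c ω (a * b ω * sg α) := by
    have h1 := hWTR F V A K Ω α lam x y b c h (fun _ => 1)
      ((LinearMap.mulRight F (sg α)).comp (LinearMap.mulLeft F a)) hRF hfr hh (fun _ _ => rfl)
      (by
        intro d v
        simp only [LinearMap.comp_apply, LinearMap.mulRight_apply, LinearMap.mulLeft_apply]
        rw [mul_assoc (a * d), sg_r, ← mul_assoc a d (α v), mul_assoc (a * d), sg_l])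
    simp only [one_mul, LinearMap.comp_apply, LinearMap.mulRight_apply,
      LinearMap.mulLeft_apply] at h1
    rw [← h1, Finset.sum_comm]
    refine Finset.sum_congr rfl (fun k _ => ?_)
    conv_lhs => rw [← hfr.2.2 (x k)]
    rw [Finset.mul_sum, Finset.sum_mul, Finset.mul_sum, map_sum]
    refine Finset.sum_congr rfl (fun ω _ => ?_)
    rw [mul_smul_comm, smul_mul_assoc, mul_smul_comm, map_smul, smul_eq_mul]
  rw [hL, hR]
  have hcomm : ∀ u v : V, α u * α v = α v * α u := by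
    intro u v
    rw [← map_mul, mul_comm, map_mul]
  rw [hFPS ℓ F V Ω h (fun ω => ∑ u, χ (φ (e ω)⁻¹ u) * c ω (a * α u * b ω * (1 - α z⁻¹))) hV hh
      ?_ (fun ω => ∀ u : V, ∃ v : V, (u, v) • ω = ω) (fun _ => Iff.rfl),
    hFPS ℓ F V Ω h (fun ω => c ω (a * b ω * sg α)) hV hh
      ?_ (fun ω => ∀ u : V, ∃ v : V, (u, v) • ω = ω) (fun _ => Iff.rfl), ← Finset.sum_neg_distrib]
  · refine Finset.sum_congr rfl (fun ω hω => ?_)
    have hP : ∀ u : V, ∃ v : V, (u, v) • ω = ω := (Finset.mem_filter.1 hω).2.2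
    refine loc φ α z b c χ a (e ω) ω hχ hz ?_
    intro u
    obtain ⟨v, hv⟩ := hP u
    have hm : (u, v) ∈ MulAction.stabilizer (V × V) ω := hv
    rw [hst ω] at hm
    obtain ⟨s, -, hs⟩ := Subgroup.mem_map.1 hm
    have h1 : φ (e ω) s = u := congrArg Prod.fst hs
    have h2 : s = v := congrArg Prod.snd hs
    have h3 : φ (e ω)⁻¹ u = v := by
      rw [← h1, ← h2, map_inv]
      exact (φ (e ω)).symm_apply_apply s
    rw [h3]
    have h4 := frb hfr u v ω
    rw [hv] at h4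
    calc α u * b ω = α u * b ω * (α v⁻¹ * α v) := by rw [← map_mul]; simp
      _ = (α u * b ω * α v⁻¹) * α v := by simp only [mul_assoc]
      _ = b ω * α v := by rw [← h4]
  · rintro ⟨p, q⟩ ω
    have := inv hfr ha 1 (fun v => by rw [one_mul, mul_one]) (sg α)
      (fun v => by rw [sg_r, sg_l]) p q ω
    simpa using this
  · rintro ⟨p, q⟩ ω
    refine Finset.sum_congr rfl (fun u _ => ?_)
    rw [he]
    refine congrArg _ ?_
    refine inv hfr ha (α u) (fun v => hcomm u v) (1 - α z⁻¹) (fun v => ?_) p q ω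
    rw [sub_mul, mul_sub, one_mul, mul_one, hcomm]

end Pool.Agent.PSS.S2.H79
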